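import Mathlib.RingTheory.Valuation.ValuationSubring
import Mathlib.Topology.Compactness.Compact
import Mathlib.Topology.Constructions
import Mathlib.Topology.Maps.Basic

/-!
# Compactness of the Zariski-Riemann space
-/

set_option autoImplicit false

namespace Pool.Agent.ZRC

variable {K : Type*} [Field K]

/-- The indicator functions of the valuation rings containing `A` form a closed set. -/
theorem isClosed_vals (A : Set K) :
    IsClosed {s : K → Bool | ∃ V : ValuationSubring K, A ⊆ V ∧ ∀ x, s x = true ↔ x ∈ V} := by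
  have hx : ∀ x : K, IsClopen {s : K → Bool | s x = true} := fun x =>
    (isClopen_discrete ({true} : Set Bool)).preimage (continuous_apply x)
  have himp : ∀ P Q : Set (K → Bool), IsClopen P → IsClopen Q → IsClosed {s | s ∈ P → s ∈ Q} := by
    intro P Q hP hQ
    have : {s | s ∈ P → s ∈ Q} = Pᶜ ∪ Q := by
      ext s
      simp only [Set.mem_ofPred_eq, Set.mem_union, Set.mem_compl_iff]
      tauto
    rw [this]
    exact (hP.compl.isClosed).union hQ.isClosed
  have h0 : {s : K → Bool | ∃ V : ValuationSubring K, A ⊆ V ∧ ∀ x, s x = true ↔ x ∈ V} =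
      (⋂ a ∈ A, {s | s a = true}) ∩ ({s | s 0 = true} ∩ ({s | s 1 = true} ∩
        ((⋂ x : K, ⋂ y : K, {s | s x = true → (s y = true → s (x + y) = true)}) ∩
        ((⋂ x : K, ⋂ y : K, {s | s x = true → (s y = true → s (x * y) = true)}) ∩
        ((⋂ x : K, {s | s x = true → s (-x) = true}) ∩
        (⋂ x : K, {s | s x = true ∨ s x⁻¹ = true})))))) := by
    ext s
    simp only [Set.mem_ofPred_eq, Set.mem_inter_iff, Set.mem_iInter]
    constructor
    · rintro ⟨V, hA, hV⟩
      refine ⟨fun a ha => (hV a).2 (hA ha), (hV 0).2 V.zero_mem, (hV 1).2 V.one_mem,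
        fun x y hx hy => (hV _).2 (V.add_mem _ _ ((hV x).1 hx) ((hV y).1 hy)),
        fun x y hx hy => (hV _).2 (V.mul_mem _ _ ((hV x).1 hx) ((hV y).1 hy)),
        fun x hx => (hV _).2 (V.neg_mem _ ((hV x).1 hx)), fun x => ?_⟩
      rcases V.mem_or_inv_mem x with h | h
      · exact Or.inl ((hV x).2 h)
      · exact Or.inr ((hV _).2 h)
    · rintro ⟨hA, h0, h1, hadd, hmul, hneg, hinv⟩
      exact ⟨{ carrier := {x | s x = true}
               mul_mem' := fun {a b} ha hb => hmul a b ha hb
               one_mem' := h1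
               add_mem' := fun {a b} ha hb => hadd a b ha hb
               zero_mem' := h0
               neg_mem' := fun {a} ha => hneg a ha
               mem_or_inv_mem' := fun x => hinv x }, fun a ha => hA a ha, fun x => Iff.rfl⟩
  rw [h0]
  refine (isClosed_biInter fun a _ => (hx a).isClosed).inter ((hx 0).isClosed.inter
    ((hx 1).isClosed.inter ((isClosed_iInter fun x => isClosed_iInter fun y => ?_).inter
      ((isClosed_iInter fun x => isClosed_iInter fun y => ?_).inter
        ((isClosed_iInter fun x => himp _ _ (hx x) (hx _)).inter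
          (isClosed_iInter fun x => (hx x).isClosed.union (hx _).isClosed))))))
  · have := himp ({s | s x = true} ∩ {s | s y = true}) {s | s (x + y) = true}
      ((hx x).inter (hx y)) (hx _)
    convert this using 1
    ext s
    exact and_imp.symm
  · have := himp ({s | s x = true} ∩ {s | s y = true}) {s | s (x * y) = true}
      ((hx x).inter (hx y)) (hx _)
    convert this using 1
    ext s
    exact and_imp.symm

/-- Compactness of the space of the valuation rings containing `A`. -/
theorem zr_compact (A : Set K) {I : Type*} (U : I → Set (ValuationSubring K))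
    (hopen : ∀ i, ∀ V ∈ U i, A ⊆ V → ∃ F : Finset K, (F : Set K) ⊆ V ∧
      ∀ V' : ValuationSubring K, A ⊆ V' → (F : Set K) ⊆ V' → V' ∈ U i)
    (hcov : ∀ V : ValuationSubring K, A ⊆ V → ∃ i, V ∈ U i) :
    ∃ t : Finset I, ∀ V : ValuationSubring K, A ⊆ V → ∃ i ∈ t, V ∈ U i := by
  classical
  let S : Set (K → Bool) := {s | ∃ V : ValuationSubring K, A ⊆ V ∧ ∀ x, s x = true ↔ x ∈ V}
  have hS : IsCompact S := (isClosed_vals A).isCompact
  -- the good finite sets
  let O : I × Finset K → Set (K → Bool) := fun p => {s | ∀ x ∈ p.2, s x = true}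
  let G : Set (I × Finset K) := {p | ∀ V' : ValuationSubring K, A ⊆ V' → (p.2 : Set K) ⊆ V' →
    V' ∈ U p.1}
  have hO : ∀ p ∈ G, IsOpen (O p) := by
    intro p _
    have : O p = ⋂ x ∈ p.2, {s | s x = true} := by
      ext s
      simp [O]
    rw [this]
    exact isOpen_biInter_finset fun x _ =>
      ((isClopen_discrete ({true} : Set Bool)).preimage (continuous_apply x)).isOpen
  have hcov' : S ⊆ ⋃ p ∈ G, O p := by
    rintro s ⟨V, hA, hV⟩
    obtain ⟨i, hi⟩ := hcov V hA
    obtain ⟨F, hFV, hF⟩ := hopen i V hi hA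
    refine Set.mem_biUnion (show (i, F) ∈ G from hF) ?_
    intro x hx
    exact (hV x).2 (hFV hx)
  obtain ⟨b, hbG, hbf, hb⟩ := hS.elim_finite_subcover_image hO hcov'
  refine ⟨(hbf.toFinset).image Prod.fst, fun V hA => ?_⟩
  have hs : (fun x => decide (x ∈ V)) ∈ S := ⟨V, hA, fun x => by simp⟩
  have h1 := hb hs
  rw [Set.mem_iUnion₂] at h1
  obtain ⟨p, hp, hpO⟩ := h1
  refine ⟨p.1, Finset.mem_image.2 ⟨p, hbf.mem_toFinset.2 hp, rfl⟩, hbG hp V hA fun x hx => ?_⟩
  have := hpO x hx
  simpa using this

end Pool.Agent.ZRC
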