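import Mathlib.AlgebraicGeometry.FunctionField
import Mathlib.AlgebraicGeometry.Morphisms.FiniteType
import Mathlib.AlgebraicGeometry.Morphisms.Smooth
import Mathlib.AlgebraicGeometry.Morphisms.Proper
import Pool.Agent.Lib.ZRC.Compact

/-!
# Zariski's finite resolving systems

If every valuation ring of the function field with a centre on `X` has a smooth centre on some
modification of `X`, finitely many of these modifications are enough.
-/

set_option autoImplicit false

open AlgebraicGeometry CategoryTheory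

namespace Pool.Agent.ZRC

/-- Factorisation through an affine open subset. -/
theorem factor_affine {X : Scheme.{0}} (U : X.Opens) (hU : IsAffineOpen U) {R : Type}
    [CommRing R] [IsLocalRing R] (c : Spec (CommRingCat.of R) ⟶ X)
    (hc : c (IsLocalRing.closedPoint R) ∈ U) :
    ∃ φ : Γ(X, U) →+* R, Spec.map (CommRingCat.ofHom φ) ≫ hU.fromSpec = c := by
  have hr : Set.range c ⊆ Set.range hU.fromSpec := by
    rw [hU.range_fromSpec]
    rintro _ ⟨x, rfl⟩
    have h1 : x ⤳ IsLocalRing.closedPoint R := IsLocalRing.specializes_closedPoint x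
    exact (h1.map c.continuous).mem_open U.isOpen hc
  refine ⟨(Spec.preimage (IsOpenImmersion.lift hU.fromSpec c hr)).hom, ?_⟩
  rw [CommRingCat.ofHom_hom, Spec.map_preimage]
  exact IsOpenImmersion.lift_fac _ _ _

/-- A point in the image of a morphism through an affine open subset. -/
theorem mem_affine {X : Scheme.{0}} (U : X.Opens) (hU : IsAffineOpen U) {R : Type}
    [CommRing R] (φ : Γ(X, U) →+* R) (x : Spec (CommRingCat.of R)) :
    (Spec.map (CommRingCat.ofHom φ) ≫ hU.fromSpec) x ∈ U := by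
  have h1 : hU.fromSpec ((Spec.map (CommRingCat.ofHom φ)) x) ∈ Set.range hU.fromSpec :=
    Set.mem_range_self _
  rw [hU.range_fromSpec] at h1
  exact h1

theorem map_ofHom_injective {R S : Type} [CommRing R] [CommRing S] {φ ψ : R →+* S}
    (h : Spec.map (CommRingCat.ofHom φ) = Spec.map (CommRingCat.ofHom ψ)) : φ = ψ :=
  congrArg CommRingCat.Hom.hom (Spec.map_injective h)

section

variable {k K : Type} [Field k] [Field K] {X : Scheme.{0}}

/-- The inclusion of the generic point in the spectrum of a valuation ring. -/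
noncomputable abbrev gen (V : ValuationSubring K) :
    Spec (CommRingCat.of K) ⟶ Spec (CommRingCat.of V) :=
  Spec.map (CommRingCat.ofHom (algebraMap V K))

/-- Two morphisms from the spectrum of a valuation ring to an affine open subset that agree at the
generic point. -/
theorem eq_of_gen (U : X.Opens) (hU : IsAffineOpen U) (V : ValuationSubring K)
    (c c' : Spec (CommRingCat.of V) ⟶ X) (hc : c (IsLocalRing.closedPoint V) ∈ U)
    (hc' : c' (IsLocalRing.closedPoint V) ∈ U) (h : gen V ≫ c = gen V ≫ c') : c = c' := by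
  obtain ⟨φ, hφ⟩ := factor_affine U hU c hc
  obtain ⟨φ', hφ'⟩ := factor_affine U hU c' hc'
  have h1 : Spec.map (CommRingCat.ofHom ((algebraMap V K).comp φ)) =
      Spec.map (CommRingCat.ofHom ((algebraMap V K).comp φ')) := by
    rw [← cancel_mono hU.fromSpec]
    have e1 : Spec.map (CommRingCat.ofHom ((algebraMap V K).comp φ)) =
      gen V ≫ Spec.map (CommRingCat.ofHom φ) := by
      rw [← Spec.map_comp]; rfl
    have e2 : Spec.map (CommRingCat.ofHom ((algebraMap V K).comp φ')) =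
      gen V ≫ Spec.map (CommRingCat.ofHom φ') := by
      rw [← Spec.map_comp]; rfl
    rw [e1, e2, Category.assoc, Category.assoc, hφ, hφ', h]
  have h2 := map_ofHom_injective h1
  have h3 : φ = φ' := by
    ext x
    have := congrArg (fun ψ : Γ(X, U) →+* K => ψ x) h2
    exact this
  rw [← hφ, ← hφ', h3]

/-- Chart of a modification `(Y, π)` with the property `P`. -/
structure Chart (f : X ⟶ Spec (CommRingCat.of k)) (η : Spec (CommRingCat.of K) ⟶ X)
    (P : (Y : Scheme.{0}) → (Y ⟶ X) → Prop) where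
  Y : Scheme.{0}
  π : Y ⟶ X
  hP : P Y π
  ft : LocallyOfFiniteType π
  W : Y.Opens
  hW : IsAffineOpen W
  φ : Γ(Y, W) →+* K
  hφ : Spec.map (CommRingCat.ofHom φ) ≫ hW.fromSpec ≫ π = η
  sm : ∃ U : Y.Opens, W ≤ U ∧ AlgebraicGeometry.Smooth (U.ι ≫ π ≫ f)

/-- Zariski's finite resolving system, over an affine open subset of `X`. -/
theorem finite_affine (f : X ⟶ Spec (CommRingCat.of k)) [LocallyOfFiniteType f]
    (η : Spec (CommRingCat.of K) ⟶ X) (P : (Y : Scheme.{0}) → (Y ⟶ X) → Prop)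
    (h : ∀ (V : ValuationSubring K) (c : Spec (CommRingCat.of V) ⟶ X), gen V ≫ c = η →
      ∃ (Y : Scheme.{0}) (π : Y ⟶ X), P Y π ∧ LocallyOfFiniteType π ∧
        ∃ c' : Spec (CommRingCat.of V) ⟶ Y, c' ≫ π = c ∧
          ∃ U : Y.Opens, c' (IsLocalRing.closedPoint V) ∈ U ∧
            AlgebraicGeometry.Smooth (U.ι ≫ π ≫ f))
    (U : X.Opens) (hU : IsAffineOpen U) :
    ∃ t : Finset (Chart f η P), ∀ (V : ValuationSubring K) (c : Spec (CommRingCat.of V) ⟶ X),
      gen V ≫ c = η → c (IsLocalRing.closedPoint V) ∈ U → ∃ i ∈ t,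
        ∃ c' : Spec (CommRingCat.of V) ⟶ i.Y, c' ≫ i.π = c ∧
          ∃ U : i.Y.Opens, c' (IsLocalRing.closedPoint V) ∈ U ∧
            AlgebraicGeometry.Smooth (U.ι ≫ i.π ≫ f) := by
  classical
  by_cases hne : ∃ φK : Γ(X, U) →+* K, Spec.map (CommRingCat.ofHom φK) ≫ hU.fromSpec = η
  swap
  · refine ⟨∅, fun V c hc hcU => (hne ?_).elim⟩
    obtain ⟨φ, hφ⟩ := factor_affine U hU c hcU
    refine ⟨(algebraMap V K).comp φ, ?_⟩
    have e1 : Spec.map (CommRingCat.ofHom ((algebraMap V K).comp φ)) =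
      gen V ≫ Spec.map (CommRingCat.ofHom φ) := by
      rw [← Spec.map_comp]; rfl
    rw [e1, Category.assoc, hφ, hc]
  obtain ⟨φK, hφK⟩ := hne
  -- the constants
  let κ : k →+* K := (Spec.preimage (η ≫ f)).hom
  have hκ : Spec.map (CommRingCat.ofHom κ) = η ≫ f := by
    rw [CommRingCat.ofHom_hom, Spec.map_preimage]
  let κU : k →+* Γ(X, U) := (Spec.preimage (hU.fromSpec ≫ f)).hom
  have hκU : Spec.map (CommRingCat.ofHom κU) = hU.fromSpec ≫ f := by
    rw [CommRingCat.ofHom_hom, Spec.map_preimage]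
  have hκ' : κ = φK.comp κU := by
    apply map_ofHom_injective
    have e1 : Spec.map (CommRingCat.ofHom (φK.comp κU)) =
      Spec.map (CommRingCat.ofHom φK) ≫ Spec.map (CommRingCat.ofHom κU) := by
      rw [← Spec.map_comp]; rfl
    rw [e1, hκ, hκU, ← Category.assoc, hφK]
  -- the morphism to `X` given by a valuation ring containing the image of `Γ(X, U)`
  have hcen : ∀ V : ValuationSubring K, Set.range φK ⊆ V → ∃ c : Spec (CommRingCat.of V) ⟶ X,
      gen V ≫ c = η ∧ c (IsLocalRing.closedPoint V) ∈ U := by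
    intro V hV
    let φV : Γ(X, U) →+* V := φK.codRestrict V fun x => hV ⟨x, rfl⟩
    refine ⟨Spec.map (CommRingCat.ofHom φV) ≫ hU.fromSpec, ?_, mem_affine U hU φV _⟩
    rw [← Category.assoc, ← Spec.map_comp]
    exact hφK
  have hran : ∀ (V : ValuationSubring K) (c : Spec (CommRingCat.of V) ⟶ X), gen V ≫ c = η →
      c (IsLocalRing.closedPoint V) ∈ U → Set.range φK ⊆ V := by
    intro V c hc hcU
    obtain ⟨φ, hφ⟩ := factor_affine U hU c hcU
    have h1 : φK = (algebraMap V K).comp φ := by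
      apply map_ofHom_injective
      rw [← cancel_mono hU.fromSpec]
      have e1 : Spec.map (CommRingCat.ofHom ((algebraMap V K).comp φ)) =
        gen V ≫ Spec.map (CommRingCat.ofHom φ) := by
        rw [← Spec.map_comp]; rfl
      rw [e1, Category.assoc, hφ, hc, hφK]
    rintro _ ⟨x, rfl⟩
    rw [h1]
    exact (φ x).2
  let UU : Chart f η P → Set (ValuationSubring K) := fun i => {V | Set.range i.φ ⊆ V}
  have hopen : ∀ i, ∀ V ∈ UU i, Set.range φK ⊆ V → ∃ F : Finset K, (F : Set K) ⊆ V ∧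
      ∀ V' : ValuationSubring K, Set.range φK ⊆ V' → (F : Set K) ⊆ V' → V' ∈ UU i := by
    -- `Γ(Y, W)` is a finitely generated algebra over `k`
    intro i V hVi hA
    have hft := i.ft
    let κW : k →+* Γ(i.Y, i.W) := (Spec.preimage (i.hW.fromSpec ≫ i.π ≫ f)).hom
    have hκW : Spec.map (CommRingCat.ofHom κW) = i.hW.fromSpec ≫ i.π ≫ f := by
      rw [CommRingCat.ofHom_hom, Spec.map_preimage]
    have h1 : LocallyOfFiniteType (Spec.map (CommRingCat.ofHom κW)) := by
      rw [hκW]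
      infer_instance
    have h2 : κW.FiniteType := (HasRingHomProperty.Spec_iff (P := @LocallyOfFiniteType)).mp h1
    have h3 : κ = i.φ.comp κW := by
      apply map_ofHom_injective
      have e1 : Spec.map (CommRingCat.ofHom (i.φ.comp κW)) =
        Spec.map (CommRingCat.ofHom i.φ) ≫ Spec.map (CommRingCat.ofHom κW) := by
        rw [← Spec.map_comp]; rfl
      rw [e1, hκ, hκW]
      have e2 := congrArg (fun g => g ≫ f) i.hφ
      simp only [Category.assoc] at e2
      exact e2.symm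
    let _ : Algebra k Γ(i.Y, i.W) := κW.toAlgebra
    have h4 : Algebra.FiniteType k Γ(i.Y, i.W) := h2
    obtain ⟨G, hG⟩ := h4.out
    refine ⟨G.image i.φ, ?_, fun V' hA' hF' => ?_⟩
    · intro x hx
      rw [Finset.coe_image] at hx
      obtain ⟨g, -, rfl⟩ := hx
      exact hVi ⟨g, rfl⟩
    · rintro _ ⟨g, rfl⟩
      have hg : g ∈ Algebra.adjoin k (G : Set Γ(i.Y, i.W)) := by rw [hG]; trivial
      induction hg using Algebra.adjoin_induction with
      | mem x hx => exact hF' (Finset.mem_coe.2 (Finset.mem_image_of_mem _ hx))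
      | algebraMap c =>
        have h5 : i.φ (algebraMap k Γ(i.Y, i.W) c) = φK (κU c) := by
          change (i.φ.comp κW) c = (φK.comp κU) c
          rw [← h3, ← hκ']
        rw [h5]
        exact hA' ⟨_, rfl⟩
      | add x y _ _ hx hy => rw [map_add]; exact V'.add_mem _ _ hx hy
      | mul x y _ _ hx hy => rw [map_mul]; exact V'.mul_mem _ _ hx hy
  have hcov : ∀ V : ValuationSubring K, Set.range φK ⊆ V → ∃ i : Chart f η P,
      V ∈ UU i ∧ i.W ≤ i.π ⁻¹ᵁ U := by
    intro V hA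
    obtain ⟨c, hc, hcU⟩ := hcen V hA
    obtain ⟨Y, π, hP, hft, c', hc', U', hcU', hsm⟩ := h V c hc
    have hmem : c' (IsLocalRing.closedPoint V) ∈ U' ⊓ π ⁻¹ᵁ U := by
      refine ⟨hcU', ?_⟩
      change π (c' (IsLocalRing.closedPoint V)) ∈ U
      have : π (c' (IsLocalRing.closedPoint V)) = c (IsLocalRing.closedPoint V) := by
        rw [← hc']; rfl
      rw [this]; exact hcU
    obtain ⟨W, hW, hxW, hWU⟩ := exists_isAffineOpen_mem_and_subset hmem
    obtain ⟨φ, hφ⟩ := factor_affine W hW c' hxW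
    have e1 : Spec.map (CommRingCat.ofHom ((algebraMap V K).comp φ)) =
      gen V ≫ Spec.map (CommRingCat.ofHom φ) := by
      rw [← Spec.map_comp]; rfl
    refine ⟨⟨Y, π, hP, hft, W, hW, (algebraMap V K).comp φ, ?_, U', fun x hx => (hWU hx).1, hsm⟩,
      ?_, fun x hx => (hWU hx).2⟩
    · rw [e1, Category.assoc, ← Category.assoc (Spec.map (CommRingCat.ofHom φ)), hφ, hc', hc]
    · rintro _ ⟨x, rfl⟩
      exact (φ x).2
  let UU' : {i : Chart f η P // i.W ≤ i.π ⁻¹ᵁ U} → Set (ValuationSubring K) := fun i => UU i.1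
  obtain ⟨t, ht⟩ := zr_compact (Set.range φK) UU' (fun i => hopen i.1) (fun V hA => by
    obtain ⟨i, hi, hiU⟩ := hcov V hA
    exact ⟨⟨i, hiU⟩, hi⟩)
  refine ⟨t.image Subtype.val, fun V c hc hcU => ?_⟩
  obtain ⟨i, hi, hiV⟩ := ht V (hran V c hc hcU)
  refine ⟨i.1, Finset.mem_image_of_mem _ hi, ?_⟩
  let φ' : Γ(i.1.Y, i.1.W) →+* V := i.1.φ.codRestrict V fun x => hiV ⟨x, rfl⟩
  have hmem : (Spec.map (CommRingCat.ofHom φ') ≫ i.1.hW.fromSpec) (IsLocalRing.closedPoint V) ∈
      i.1.W := mem_affine i.1.W i.1.hW φ' _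
  refine ⟨Spec.map (CommRingCat.ofHom φ') ≫ i.1.hW.fromSpec, ?_, ?_⟩
  · refine eq_of_gen (K := K) U hU V _ c ?_ hcU ?_
    · exact i.2 hmem
    · rw [hc, Category.assoc, ← Category.assoc (gen V), ← Spec.map_comp]
      exact i.1.hφ
  · obtain ⟨U', hWU', hsm⟩ := i.1.sm
    exact ⟨U', hWU' hmem, hsm⟩

/-- Zariski's finite resolving system. -/
theorem finite_system [CompactSpace X] (f : X ⟶ Spec (CommRingCat.of k)) [LocallyOfFiniteType f]
    (η : Spec (CommRingCat.of K) ⟶ X) (P : (Y : Scheme.{0}) → (Y ⟶ X) → Prop)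
    (h : ∀ (V : ValuationSubring K) (c : Spec (CommRingCat.of V) ⟶ X), gen V ≫ c = η →
      ∃ (Y : Scheme.{0}) (π : Y ⟶ X), P Y π ∧ LocallyOfFiniteType π ∧
        ∃ c' : Spec (CommRingCat.of V) ⟶ Y, c' ≫ π = c ∧
          ∃ U : Y.Opens, c' (IsLocalRing.closedPoint V) ∈ U ∧
            AlgebraicGeometry.Smooth (U.ι ≫ π ≫ f)) :
    ∃ (m : ℕ) (Y : Fin m → Scheme.{0}) (π : ∀ j, Y j ⟶ X), (∀ j, P (Y j) (π j)) ∧
      ∀ (V : ValuationSubring K) (c : Spec (CommRingCat.of V) ⟶ X), gen V ≫ c = η →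
        ∃ (j : Fin m) (c' : Spec (CommRingCat.of V) ⟶ Y j), c' ≫ π j = c ∧
          ∃ U : (Y j).Opens, c' (IsLocalRing.closedPoint V) ∈ U ∧
            AlgebraicGeometry.Smooth (U.ι ≫ π j ≫ f) := by
  classical
  have h1 : ∀ x : X, ∃ U : X.Opens, IsAffineOpen U ∧ x ∈ U := by
    intro x
    obtain ⟨U, hU, hx, -⟩ := exists_isAffineOpen_mem_and_subset (U := (⊤ : X.Opens)) (x := x)
      trivial
    exact ⟨U, hU, hx⟩
  choose U hU hxU using h1
  obtain ⟨s, hs⟩ := isCompact_univ.elim_finite_subcover (fun x => (U x : Set X))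
    (fun x => (U x).isOpen) (fun x _ => Set.mem_iUnion.2 ⟨x, hxU x⟩)
  choose t ht using fun x => finite_affine f η P h (U x) (hU x)
  let T : Finset (Chart f η P) := s.biUnion t
  let e := T.equivFin
  refine ⟨T.card, fun j => (e.symm j).1.Y, fun j => (e.symm j).1.π, fun j => (e.symm j).1.hP,
    fun V c hc => ?_⟩
  have h2 := hs (Set.mem_univ (c (IsLocalRing.closedPoint V)))
  rw [Set.mem_iUnion₂] at h2
  obtain ⟨x, hx, hxc⟩ := h2
  obtain ⟨i, hi, hi'⟩ := ht x V c hc hxc
  have hiT : i ∈ T := Finset.mem_biUnion.2 ⟨x, hx, hi⟩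
  have key : ∀ y : T, y = ⟨i, hiT⟩ → ∃ c' : Spec (CommRingCat.of V) ⟶ y.1.Y, c' ≫ y.1.π = c ∧
      ∃ U : y.1.Y.Opens, c' (IsLocalRing.closedPoint V) ∈ U ∧
        AlgebraicGeometry.Smooth (U.ι ≫ y.1.π ≫ f) := by
    rintro _ rfl
    exact hi'
  exact ⟨e ⟨i, hiT⟩, key _ (e.symm_apply_apply _)⟩

end

end Pool.Agent.ZRC
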